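import Pool.Agent.Helper51.BW.Spec

/-!
# BW, parts CROSS and CONN
-/

set_option autoImplicit false

open MeasureTheory Filter Topology

namespace Pool.Agent.Helper89.BW.CROSS

open Pool.Agent.Helper51.BW

/-- leaving the past of a cut time -/
theorem leave {d : ℕ} {S : ℕ → V d} {b : ℕ} (hb : IsCut S b) {x y : V d} (h : Trace S x y)
    (hx : ∃ t ≤ b, S t = x) (hy : ¬ ∃ t ≤ b, S t = y) : x = S b ∧ y = S (b + 1) := by
  obtain ⟨t, ht, rfl⟩ := hx
  obtain ⟨k, ⟨h1, h2⟩ | ⟨h1, h2⟩⟩ := h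
  · have hk1 : b < k + 1 := by
      by_contra hc
      exact hy ⟨k + 1, by omega, h2⟩
    have hk2 : k ≤ b := by
      by_contra hc
      exact hb t k ht (by omega) h1.symm
    have hk : k = b := by omega
    subst hk
    exact ⟨h1.symm, h2.symm⟩
  · exfalso
    have hk1 : b < k := by
      by_contra hc
      exact hy ⟨k, by omega, h1⟩
    exact hb t (k + 1) ht (by omega) h2.symm

theorem main : S_CROSS := by
  intro d S Y b hS hb hY0 hT hF
  classical
  have h1 : ∃ n, ¬ ∃ t ≤ b, S t = Y n := by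
    obtain ⟨n, hn⟩ := hF ((Finset.range (b + 1)).image S)
    refine ⟨n, ?_⟩
    rintro ⟨t, ht, h⟩
    exact hn (Finset.mem_image.2 ⟨t, Finset.mem_range.2 (by omega), h⟩)
  obtain ⟨m, hm⟩ : ∃ m, Nat.find h1 = m + 1 := by
    refine ⟨Nat.find h1 - 1, ?_⟩
    have : Nat.find h1 ≠ 0 := by
      intro h0
      have h2 := Nat.find_spec h1
      rw [h0] at h2
      exact h2 ⟨0, Nat.zero_le _, by rw [hS.1, hY0]⟩
    omega
  have h2 := Nat.find_spec h1
  have h3 : ∀ s ≤ m, ∃ t ≤ b, S t = Y s := fun s hs => by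
    have := Nat.find_min h1 (m := s) (by omega)
    exact not_not.1 this
  rw [hm] at h2
  obtain ⟨e1, e2⟩ := leave hb (hT m) (h3 m le_rfl) h2
  refine ⟨m, e1, e2, fun s hs => ?_⟩
  obtain ⟨t, ht, h⟩ := h3 s hs
  exact ⟨t, ht, h.symm⟩

theorem conn : S_CONN := by
  intro d S Y a j b n B hS haj hjb ha hb hY0 hT hB hbB hYn hYB
  classical
  -- the last time in the past of `a`
  have hex : ∃ m, m ≤ n ∧ (∃ t ≤ a, S t = Y m) ∧
      ∀ s, m < s → s ≤ n → ¬ ∃ t ≤ a, S t = Y s := by
    have key : ∀ n : ℕ, ∃ m, m ≤ n ∧ (∃ t ≤ a, S t = Y m) ∧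
        ∀ s, m < s → s ≤ n → ¬ ∃ t ≤ a, S t = Y s := by
      intro n
      induction n with
      | zero =>
        exact ⟨0, le_rfl, ⟨0, Nat.zero_le _, by rw [hS.1, hY0]⟩, fun s h1 h2 => by omega⟩
      | succ n ih =>
        by_cases h : ∃ t ≤ a, S t = Y (n + 1)
        · exact ⟨n + 1, le_rfl, h, fun s h1 h2 => by omega⟩
        · obtain ⟨m, hm, h1, h2⟩ := ih
          refine ⟨m, by omega, h1, fun s h3 h4 => ?_⟩
          rcases Nat.lt_or_ge n s with h5 | h5
          · have : s = n + 1 := by omega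
            rw [this]
            exact h
          · exact h2 s h3 h5
    exact key n
  obtain ⟨m, hmn, hma, hms⟩ := hex
  have hm : m < n := by
    rcases Nat.lt_or_ge m n with h | h
    · exact h
    · exfalso
      have : m = n := by omega
      rw [this, hYn] at hma
      obtain ⟨t, ht, h⟩ := hma
      exact ha t j ht haj h
  obtain ⟨e1, e2⟩ := leave ha (hT m) hma (hms (m + 1) (by omega) (by omega))
  -- the walk stays between the cut times
  have hin : ∀ s, m ≤ s → s ≤ n → ∃ t, a ≤ t ∧ t ≤ b ∧ S t = Y s := by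
    intro s hs
    induction s, hs using Nat.le_induction with
    | base => exact fun _ => ⟨a, le_rfl, by omega, e1.symm⟩
    | succ s hs ih =>
      intro hsn
      obtain ⟨t, h1, h2, h3⟩ := ih (by omega)
      by_cases hc : ∃ t ≤ b, S t = Y (s + 1)
      · obtain ⟨t', h4, h5⟩ := hc
        refine ⟨t', ?_, h4, h5⟩
        by_contra h6
        exact hms (s + 1) (by omega) hsn ⟨t', by omega, h5⟩
      · exfalso
        have h6 := (leave hb (hT s) ⟨t, h2, h3⟩ hc).1
        exact hYB s (by omega) (h6 ▸ hbB)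
  have hchain : ∀ s, m ≤ s → s ≤ n → Relation.ReflTransGen
      (fun z z' => ((∃ t, a ≤ t ∧ t ≤ b ∧ S t = z) ∧ z ∉ B) ∧
        ((∃ t, a ≤ t ∧ t ≤ b ∧ S t = z') ∧ z' ∉ B) ∧ Trace Y z z') (S a) (Y s) := by
    intro s hs
    induction s, hs using Nat.le_induction with
    | base => exact fun _ => by rw [e1]
    | succ s hs ih =>
      intro hsn
      refine (ih (by omega)).tail ⟨⟨hin s hs (by omega), hYB s (by omega)⟩,
        ⟨hin (s + 1) (by omega) hsn, hYB (s + 1) hsn⟩, s, Or.inl ⟨rfl, rfl⟩⟩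
  rw [← hYn]
  exact hchain n hm.le le_rfl

end Pool.Agent.Helper89.BW.CROSS

namespace Pool.Agent.Helper89.BW.CONN

theorem main : Pool.Agent.Helper51.BW.S_CONN := Pool.Agent.Helper89.BW.CROSS.conn

end Pool.Agent.Helper89.BW.CONN
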